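import Pool.Agent.Q281.PB.Main

/-! There is an unsplittable permutation class incomparable with the class of separable
permutations. -/

set_option autoImplicit false

open Pool.Agent.Q281.PA Pool.Agent.Q281.PB

theorem Pool.Agent.Results.MP_2af702_co.Incomparable.result :
    ∃ C : Set FPerm, IsPermClass C ∧ Unsplittable C ∧
      ¬ Pool.Agent.Q281.PB.Sep ⊆ C ∧ ¬ C ⊆ Pool.Agent.Q281.PB.Sep :=
  Pool.Agent.Q281.PB.main
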